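import Pool.Agent.helper23.CU.Spec

/-! Module cu:BX1. -/

open Finset Filter Topology

namespace CU

theorem BX1_ext_mono {d n : ℕ} [NeZero n] (D : Finset (Site d n)) (σ η : Conf d n) (h : σ ≤ η) :
    ext D σ ≤ ext D η := by
  intro x
  unfold ext
  by_cases hx : x ∈ D
  · rw [if_pos hx, if_pos hx]; exact h x
  · rw [if_neg hx, if_neg hx]

theorem BX1_le_ext {d n : ℕ} [NeZero n] (D : Finset (Site d n)) (σ : Conf d n) : σ ≤ ext D σ := by
  intro x
  unfold ext
  by_cases hx : x ∈ D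
  · rw [if_pos hx]
  · rw [if_neg hx]; exact Bool.le_true _

theorem BX1_mono (hM : MON_stmt) {d n : ℕ} [NeZero n] (hn : 3 ≤ n) (β : ℝ) (hβ : 0 ≤ β) (g : Conf d n → ℝ)
    (hg : Monotone g) (σ η : Conf d n) (h : σ ≤ η) : Pf β g σ ≤ Pf β g η := by
  have h1 := (hM d n hn β hβ g hg).2 1 h
  exact h1

theorem BX1_op (hL : LIN_stmt) {d n : ℕ} [NeZero n] (β : ℝ) (g g' : Conf d n → ℝ)
    (hg : ∀ σ, g σ ≤ g' σ) (σ : Conf d n) : Pf β g σ ≤ Pf β g' σ := by
  have h1 := (hL d n β g g' 0 0 1).2.1 hg σ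
  exact h1

theorem BX1_PD {d n : ℕ} [NeZero n] (β : ℝ) (D : Finset (Site d n)) (g : Conf d n → ℝ) (σ : Conf d n) :
    PD β D g σ = Pf β g (ext D σ) := rfl

theorem BX1 (hM : MON_stmt) (hL : LIN_stmt) : BX1_stmt := by
  intro d n _ hn β hβ D f hf t
  have hmono : ∀ t, Monotone ((PD β D)^[t] f) := by
    intro t
    induction t with
    | zero => exact hf
    | succ t ih =>
      rw [Function.iterate_succ_apply']
      intro σ η h
      rw [BX1_PD, BX1_PD]
      exact BX1_mono hM hn β hβ _ ih _ _ (BX1_ext_mono D σ η h)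
  induction t with
  | zero =>
    intro σ
    rw [Function.iterate_zero, Function.iterate_zero]
  | succ t ih =>
    intro σ
    rw [Function.iterate_succ_apply', Function.iterate_succ_apply', BX1_PD]
    exact (BX1_op hL β _ _ ih σ).trans (BX1_mono hM hn β hβ _ (hmono t) _ _ (BX1_le_ext D σ))

end CU
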