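import Pool.Agent.helper23.CU.SpecE

/-! Module cu:QD. -/

open Finset Filter Topology

namespace CU

theorem QD_aux {α : Type} [DecidableEq α] (G η ζ : Finset α) (x : ℝ) (hζ : ζ ⊆ G) :
    ∑ ω ∈ G.powerset.filter (fun ω => (η ∩ G) ∪ ζ ⊆ ω),
      (x ^ 2) ^ (ω \ (η ∪ ζ)).card * (1 - x ^ 2) ^ (G \ ω).card = 1 := by
  set A := (η ∩ G) ∪ ζ with hA
  have hAG : A ⊆ G := union_subset inter_subset_right hζ
  have key : ∑ T ∈ (G \ A).powerset, (x ^ 2) ^ T.card * (1 - x ^ 2) ^ ((G \ A).card - T.card) = 1 := by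
    rw [Finset.sum_pow_mul_eq_add_pow]
    rw [show x ^ 2 + (1 - x ^ 2) = 1 by ring, one_pow]
  refine Eq.trans ?_ key
  refine Finset.sum_nbij' (fun ω => ω \ A) (fun T => T ∪ A) ?_ ?_ ?_ ?_ ?_
  · intro ω hω
    rw [mem_filter, mem_powerset] at hω
    rw [mem_powerset]
    exact sdiff_subset_sdiff hω.1 (Subset.refl _)
  · intro T hT
    rw [mem_powerset] at hT
    rw [mem_filter, mem_powerset]
    exact ⟨union_subset (hT.trans sdiff_subset) hAG, subset_union_right⟩
  · intro ω hω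
    rw [mem_filter, mem_powerset] at hω
    exact sdiff_union_of_subset hω.2
  · intro T hT
    rw [mem_powerset] at hT
    show (T ∪ A) \ A = T
    ext e
    rw [Finset.mem_sdiff, mem_union]
    constructor
    · rintro ⟨h1 | h1, h2⟩
      · exact h1
      · exact absurd h1 h2
    · intro h
      exact ⟨Or.inl h, (Finset.mem_sdiff.mp (hT h)).2⟩
  · intro ω hω
    rw [mem_filter, mem_powerset] at hω
    have h1 : ω \ (η ∪ ζ) = ω \ A := by
      ext e
      rw [Finset.mem_sdiff, Finset.mem_sdiff, hA, mem_union, mem_union, mem_inter]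
      constructor
      · rintro ⟨h1, h2⟩
        exact ⟨h1, fun h3 => h2 (h3.imp (fun h => h.1) id)⟩
      · rintro ⟨h1, h2⟩
        exact ⟨h1, fun h3 => h2 (h3.imp (fun h => ⟨h, hω.1 h1⟩) id)⟩
    have h2 : (G \ ω).card = (G \ A).card - (ω \ A).card := by
      rw [card_sdiff_of_subset hω.1, card_sdiff_of_subset hAG, card_sdiff_of_subset hω.2]
      have := card_le_card hω.2
      have := card_le_card hω.1
      omega
    rw [h1, h2]

theorem QD : QD_stmt := by
  intro n G η ζ x hζ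
  have h := QD_aux G η ζ x hζ
  calc _ = ∑ ω ∈ G.powerset.filter (fun ω => (η ∩ G) ∪ ζ ⊆ ω), x ^ (η.card + ζ.card) *
      ((x ^ 2) ^ (ω \ (η ∪ ζ)).card * (1 - x ^ 2) ^ (G \ ω).card) :=
        Finset.sum_congr rfl fun ω _ => by ring
    _ = x ^ (η.card + ζ.card) := by rw [← Finset.mul_sum, h, mul_one]

end CU
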